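import Mathlib
import Pool.Agent.Helper547.Diestel.Gauss

/-!
# Gaussian embeddings of the (real or complex) Hilbert space into functions on `[0,1]`
-/

set_option autoImplicit false

open MeasureTheory ProbabilityTheory Filter Topology
open scoped ENNReal NNReal

namespace Pool.Agent.U541.WM

open Pool.Agent.Helper547.Diestel (mu01 H2 G G_char)

variable (𝕜 : Type) [RCLike 𝕜]

/-- The Hilbert space of square summable sequences. -/
abbrev Hs : Type := lp (fun _ : ℕ => 𝕜) 2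

variable {𝕜}

/-- interleaving of real and imaginary parts -/
noncomputable def phiFun (h : Hs 𝕜) (k : ℕ) : ℝ :=
  if k % 2 = 0 then RCLike.re (h (k / 2)) else RCLike.im (h (k / 2))

lemma hasSum_sq (h : Hs 𝕜) : HasSum (fun k => ‖h k‖ ^ 2) (‖h‖ ^ 2) := by
  have := lp.hasSum_norm (p := 2) (by norm_num) h
  simpa using this

lemma hasSum_phi (h : Hs 𝕜) : HasSum (fun k => (phiFun h k) ^ 2) (‖h‖ ^ 2) := by
  have h1 := hasSum_sq h
  have hre : Summable (fun k => (RCLike.re (h k)) ^ 2) := by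
    refine Summable.of_nonneg_of_le (fun k => sq_nonneg _) (fun k => ?_) h1.summable
    rw [← sq_abs]
    exact pow_le_pow_left₀ (abs_nonneg _) (RCLike.abs_re_le_norm _) 2
  have him : Summable (fun k => (RCLike.im (h k)) ^ 2) := by
    refine Summable.of_nonneg_of_le (fun k => sq_nonneg _) (fun k => ?_) h1.summable
    rw [← sq_abs]
    exact pow_le_pow_left₀ (abs_nonneg _) (RCLike.abs_im_le_norm _) 2
  have h2 := hre.hasSum.add him.hasSum
  have h3 : (fun k => (RCLike.re (h k)) ^ 2 + (RCLike.im (h k)) ^ 2) = fun k => ‖h k‖ ^ 2 := by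
    funext k
    rw [RCLike.norm_sq_eq_def]
    ring
  rw [h3] at h2
  have h4 := h2.unique h1
  have h5 : HasSum (fun k => (phiFun h k) ^ 2)
      ((∑' k, (RCLike.re (h k)) ^ 2) + ∑' k, (RCLike.im (h k)) ^ 2) := by
    refine HasSum.even_add_odd ?_ ?_
    · convert hre.hasSum using 2 with k
      simp [phiFun]
    · convert him.hasSum using 2 with k
      have e1 : (2 * k + 1) % 2 = 1 := by omega
      have e2 : (2 * k + 1) / 2 = k := by omega
      simp [phiFun, e1, e2]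
  rwa [h4] at h5

lemma phi_memlp (h : Hs 𝕜) : Memℓp (phiFun h) 2 := by
  refine memℓp_gen ?_
  have := (hasSum_phi h).summable
  simpa using this

/-- A real-linear isometry from `ℓ²(𝕜)` into the real space `ℓ²`. -/
noncomputable def Phi : Hs 𝕜 →ₗᵢ[ℝ] H2 where
  toFun h := ⟨phiFun h, phi_memlp h⟩
  map_add' h h' := by
    apply lp.ext
    funext k
    simp only [lp.coeFn_add, Pi.add_apply]
    show phiFun (h + h') k = phiFun h k + phiFun h' k
    unfold phiFun
    split_ifs <;> simp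
  map_smul' c h := by
    apply lp.ext
    funext k
    simp only [lp.coeFn_smul, Pi.smul_apply]
    show phiFun (c • h) k = c • phiFun h k
    unfold phiFun
    split_ifs <;> simp [RCLike.smul_re, RCLike.smul_im]
  norm_map' h := by
    have h1 := hasSum_phi h
    set v : H2 := ⟨phiFun h, phi_memlp h⟩ with hv
    have h2 : HasSum (fun k => ‖v k‖ ^ 2) (‖v‖ ^ 2) := by
      have := lp.hasSum_norm (p := 2) (by norm_num) v
      simpa using this
    have h3 : (fun k => ‖v k‖ ^ 2) = fun k => (phiFun h k) ^ 2 := by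
      funext k
      rw [Real.norm_eq_abs, sq_abs]
    rw [h3] at h2
    have h4 := h2.unique h1
    exact (sq_eq_sq₀ (norm_nonneg _) (norm_nonneg _)).1 h4

/-- The real Gaussian process. -/
noncomputable def RR : Hs 𝕜 →ₗᵢ[ℝ] Lp ℝ 2 mu01 := G.comp Phi

lemma RR_char (h : Hs 𝕜) : ∫ t, Complex.exp (((RR h : Lp ℝ 2 mu01) t : ℂ) * Complex.I) ∂mu01 =
    Complex.exp (-((‖h‖ ^ 2 : ℝ) : ℂ) / 2) := by
  have := G_char (Phi h)
  rw [LinearIsometry.norm_map] at this
  exact this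

/-- real linear combinations of `RR` -/
lemma RR_smul_ae (c : ℝ) (h : Hs 𝕜) : (RR (c • h) : ℝ → ℝ) =ᵐ[mu01] fun t => c * RR h t := by
  rw [map_smul]
  filter_upwards [Lp.coeFn_smul c (RR h)] with t ht
  rw [ht]
  rfl

lemma RR_add_ae (h h' : Hs 𝕜) : (RR (h + h') : ℝ → ℝ) =ᵐ[mu01] fun t => RR h t + RR h' t := by
  rw [map_add]
  filter_upwards [Lp.coeFn_add (RR h) (RR h')] with t ht
  rw [ht]
  rfl

lemma RR_aesm (h : Hs 𝕜) : AEStronglyMeasurable (RR h : ℝ → ℝ) mu01 := Lp.aestronglyMeasurable _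

/-- the law of `RR h` -/
lemma RR_law (h : Hs 𝕜) : mu01.map (RR h : ℝ → ℝ) = gaussianReal 0 (NNReal.mk (‖h‖ ^ 2) (sq_nonneg _)) := by
  have hm := (RR_aesm h).aemeasurable
  have : IsProbabilityMeasure (mu01.map (RR h : ℝ → ℝ)) := Measure.isProbabilityMeasure_map hm
  apply Measure.ext_of_charFun
  funext s
  rw [charFun_apply_real, charFun_gaussianReal, integral_map hm (by fun_prop)]
  have h1 := RR_char (s • h)
  have h2 : ∫ t, Complex.exp (((RR (s • h) : Lp ℝ 2 mu01) t : ℂ) * Complex.I) ∂mu01 =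
      ∫ t, Complex.exp (s * (RR h t : ℝ) * Complex.I) ∂mu01 := by
    apply integral_congr_ae
    filter_upwards [RR_smul_ae s h] with t ht
    rw [ht]
    push_cast
    rfl
  rw [← h2, h1, norm_smul]
  congr 1
  rw [Real.norm_eq_abs, mul_pow, sq_abs]
  push_cast
  simp
  ring

lemma RR_memLp (h : Hs 𝕜) (p : ℝ≥0∞) (hp : p ≠ ∞) : MemLp (RR h : ℝ → ℝ) p mu01 := by
  have h1 := memLp_id_gaussianReal' (μ := 0) (v := NNReal.mk (‖h‖ ^ 2) (sq_nonneg _)) p hp
  rw [← RR_law h] at h1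
  exact (memLp_map_measure_iff aestronglyMeasurable_id (RR_aesm h).aemeasurable).mp h1

/-- The Gaussian functions with values in `𝕜`. -/
noncomputable def Jf (h : Hs 𝕜) (t : ℝ) : 𝕜 :=
  ((RR h t : ℝ) : 𝕜) - (RCLike.I : 𝕜) * ((RR ((RCLike.I : 𝕜) • h) t : ℝ) : 𝕜)

lemma Jf_memLp (h : Hs 𝕜) (p : ℝ≥0∞) (hp : p ≠ ∞) : MemLp (Jf h) p mu01 := by
  have h1 := (RR_memLp h p hp).ofReal (K := 𝕜)
  have h2 := ((RR_memLp ((RCLike.I : 𝕜) • h) p hp).ofReal (K := 𝕜)).const_mul (RCLike.I : 𝕜)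
  exact h1.sub h2

lemma Jf_add_ae (h h' : Hs 𝕜) : Jf (h + h') =ᵐ[mu01] fun t => Jf h t + Jf h' t := by
  filter_upwards [RR_add_ae h h', RR_add_ae ((RCLike.I : 𝕜) • h) ((RCLike.I : 𝕜) • h')] with t h1 h2
  unfold Jf
  rw [h1, smul_add, h2]
  push_cast
  ring

lemma Jf_smul_ae (c : 𝕜) (h : Hs 𝕜) : Jf (c • h) =ᵐ[mu01] fun t => c * Jf h t := by
  have e1 : c • h = (RCLike.re c) • h + (RCLike.im c) • ((RCLike.I : 𝕜) • h) := by
    apply lp.ext
    funext k
    simp only [lp.coeFn_add, lp.coeFn_smul, Pi.add_apply, Pi.smul_apply, smul_eq_mul,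
      RCLike.real_smul_eq_coe_mul]
    conv_lhs => rw [← RCLike.re_add_im c]
    ring
  have hI : ((RCLike.im c : ℝ) : 𝕜) * ((RCLike.I : 𝕜) * RCLike.I) = -((RCLike.im c : ℝ) : 𝕜) := by
    rcases RCLike.I_mul_I_ax (K := 𝕜) with h0 | h0
    · have : RCLike.im c = 0 := by
        have := RCLike.im_eq_zero (K := 𝕜) h0 c
        exact this
      simp [this]
    · rw [h0]; ring
  have e2 : (RCLike.I : 𝕜) • (c • h) = (RCLike.re c) • ((RCLike.I : 𝕜) • h) +
      (-(RCLike.im c)) • h := by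
    apply lp.ext
    funext k
    simp only [lp.coeFn_add, lp.coeFn_smul, Pi.add_apply, Pi.smul_apply, smul_eq_mul,
      RCLike.real_smul_eq_coe_mul]
    conv_lhs => rw [← RCLike.re_add_im c]
    push_cast
    linear_combination (h k) * hI
  filter_upwards [RR_add_ae ((RCLike.re c) • h) ((RCLike.im c) • ((RCLike.I : 𝕜) • h)),
    RR_add_ae ((RCLike.re c) • ((RCLike.I : 𝕜) • h)) ((-(RCLike.im c)) • h),
    RR_smul_ae (RCLike.re c) h, RR_smul_ae (RCLike.im c) ((RCLike.I : 𝕜) • h),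
    RR_smul_ae (RCLike.re c) ((RCLike.I : 𝕜) • h), RR_smul_ae (-(RCLike.im c)) h]
    with t h1 h2 h3 h4 h5 h6
  unfold Jf
  rw [e2, e1, h1, h2, h3, h4, h5, h6]
  conv_rhs => rw [← RCLike.re_add_im c]
  push_cast
  linear_combination (((RR ((RCLike.I : 𝕜) • h) t : ℝ) : 𝕜)) * hI

end Pool.Agent.U541.WM
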