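import Mathlib
import Pool.Agent.U541.WM.A

/-!
# Laws of the Gaussian embeddings
-/

set_option autoImplicit false

open MeasureTheory ProbabilityTheory Filter Topology
open scoped ENNReal NNReal

namespace Pool.Agent.U541.WM

open Pool.Agent.Helper547.Diestel (mu01 H2 G G_char)

variable {𝕜 : Type} [RCLike 𝕜] [MeasurableSpace 𝕜] [BorelSpace 𝕜]

/-- the scalar attached to a real-linear functional -/
noncomputable def cL (L : 𝕜 →L[ℝ] ℝ) : 𝕜 := ((L 1 : ℝ) : 𝕜) - ((L RCLike.I : ℝ) : 𝕜) * RCLike.I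

omit [MeasurableSpace 𝕜] [BorelSpace 𝕜] in
lemma L_Jf_ae (L : 𝕜 →L[ℝ] ℝ) (h : Hs 𝕜) : (fun t => L (Jf h t)) =ᵐ[mu01] (RR (cL L • h) : ℝ → ℝ) := by
  have e1 : cL L • h = (L 1) • h + (-(L RCLike.I)) • ((RCLike.I : 𝕜) • h) := by
    apply lp.ext
    funext k
    simp only [lp.coeFn_add, lp.coeFn_smul, Pi.add_apply, Pi.smul_apply, smul_eq_mul,
      RCLike.real_smul_eq_coe_mul, cL]
    push_cast
    ring
  rw [e1]
  filter_upwards [RR_add_ae ((L 1) • h) ((-(L RCLike.I)) • ((RCLike.I : 𝕜) • h)),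
    RR_smul_ae (L 1) h, RR_smul_ae (-(L RCLike.I)) ((RCLike.I : 𝕜) • h)] with t h1 h2 h3
  rw [h1, h2, h3]
  have h4 : Jf h t = (RR h t : ℝ) • (1 : 𝕜) - (RR ((RCLike.I : 𝕜) • h) t : ℝ) • (RCLike.I : 𝕜) := by
    unfold Jf
    rw [RCLike.real_smul_eq_coe_mul, RCLike.real_smul_eq_coe_mul]
    ring
  rw [h4, map_sub, map_smul, map_smul, smul_eq_mul, smul_eq_mul]
  ring

omit [MeasurableSpace 𝕜] [BorelSpace 𝕜] in
lemma Jf_aesm (h : Hs 𝕜) : AEStronglyMeasurable (Jf h) mu01 := (Jf_memLp h 1 (by simp)).1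

lemma Jf_charFun (L : 𝕜 →L[ℝ] ℝ) (h : Hs 𝕜) : charFunDual (mu01.map (Jf h)) L =
    Complex.exp (-(((‖cL L‖ * ‖h‖) ^ 2 : ℝ) : ℂ) / 2) := by
  rw [charFunDual_apply, integral_map (Jf_aesm h).aemeasurable (by fun_prop)]
  rw [← norm_smul, ← RR_char]
  apply integral_congr_ae
  filter_upwards [L_Jf_ae L h] with t ht
  rw [ht]

/-- the law of `Jf h` depends only on the norm of `h` -/
lemma Jf_law {h h' : Hs 𝕜} (hh : ‖h‖ = ‖h'‖) : mu01.map (Jf h) = mu01.map (Jf h') := by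
  have i1 : IsProbabilityMeasure (mu01.map (Jf h)) :=
    Measure.isProbabilityMeasure_map (Jf_aesm h).aemeasurable
  have i2 : IsProbabilityMeasure (mu01.map (Jf h')) :=
    Measure.isProbabilityMeasure_map (Jf_aesm h').aemeasurable
  apply Measure.ext_of_charFunDual
  funext L
  rw [Jf_charFun, Jf_charFun, hh]

/-- orthogonality gives independence -/
lemma Jf_joint {h h' : Hs 𝕜} (hh : ∀ c d : 𝕜, ‖c • h + d • h'‖ ^ 2 = ‖c • h‖ ^ 2 + ‖d • h'‖ ^ 2) :
    mu01.map (fun t => (Jf h t, Jf h' t)) = (mu01.map (Jf h)).prod (mu01.map (Jf h')) := by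
  have m1 := (Jf_aesm h).aemeasurable
  have m2 := (Jf_aesm h').aemeasurable
  have i1 : IsProbabilityMeasure (mu01.map (Jf h)) := Measure.isProbabilityMeasure_map m1
  have i2 : IsProbabilityMeasure (mu01.map (Jf h')) := Measure.isProbabilityMeasure_map m2
  have m3 : AEMeasurable (fun t => (Jf h t, Jf h' t)) mu01 := m1.prodMk m2
  have i3 : IsProbabilityMeasure (mu01.map (fun t => (Jf h t, Jf h' t))) :=
    Measure.isProbabilityMeasure_map m3
  rw [← charFunDual_eq_prod_iff]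
  intro L
  rw [Jf_charFun, Jf_charFun, charFunDual_apply, integral_map m3 (by fun_prop)]
  set L1 := L.comp (.inl ℝ 𝕜 𝕜) with hL1
  set L2 := L.comp (.inr ℝ 𝕜 𝕜) with hL2
  have h1 : ∫ t, Complex.exp ((L (Jf h t, Jf h' t) : ℝ) * Complex.I) ∂mu01 =
      ∫ t, Complex.exp (((RR (cL L1 • h + cL L2 • h') : Lp ℝ 2 mu01) t : ℂ) * Complex.I) ∂mu01 := by
    apply integral_congr_ae
    filter_upwards [L_Jf_ae L1 h, L_Jf_ae L2 h', RR_add_ae (cL L1 • h) (cL L2 • h')]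
      with t h1 h2 h3
    rw [h3, ← h1, ← h2]
    have h4 : L (Jf h t, Jf h' t) = L1 (Jf h t) + L2 (Jf h' t) := by
      rw [hL1, hL2]
      simp only [ContinuousLinearMap.comp_apply, ContinuousLinearMap.inl_apply,
        ContinuousLinearMap.inr_apply]
      rw [← map_add]
      simp
    rw [h4]
  rw [h1, RR_char, ← Complex.exp_add, hh, norm_smul, norm_smul]
  congr 1
  push_cast
  ring

/-- norms of `c + Jf h` only depend on `c` and the norm of `h` -/
lemma eLpNorm_const_add_Jf (c : 𝕜) {h h' : Hs 𝕜} (hh : ‖h‖ = ‖h'‖) (p : ℝ≥0∞) :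
    eLpNorm (fun t => c + Jf h t) p mu01 = eLpNorm (fun t => c + Jf h' t) p mu01 := by
  have e : ∀ h : Hs 𝕜, eLpNorm (fun t => c + Jf h t) p mu01 =
      eLpNorm (fun z : 𝕜 => c + z) p (mu01.map (Jf h)) := by
    intro h
    rw [eLpNorm_map_measure (by fun_prop) (Jf_aesm h).aemeasurable]
    rfl
  rw [e h, e h', Jf_law hh]

end Pool.Agent.U541.WM
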