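import Mathlib
import Pool.Agent.U541.WM.B

/-!
# The normalised Gaussian embedding into `L_q[0,1]`, and a vector of norm larger than one
-/

set_option autoImplicit false
set_option linter.unusedSectionVars false
set_option linter.style.haveILetI false

open MeasureTheory ProbabilityTheory Filter Topology
open scoped ENNReal NNReal

namespace Pool.Agent.U541.WM

open Pool.Agent.Helper547.Diestel (mu01 H2 G G_char)

variable {𝕜 : Type} [RCLike 𝕜]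

/-- unit vectors -/
noncomputable def ee (n : ℕ) : Hs 𝕜 := lp.single 2 n (1 : 𝕜)

lemma norm_ee (n : ℕ) : ‖(ee n : Hs 𝕜)‖ = 1 := by
  unfold ee
  rw [lp.norm_single (by norm_num)]
  simp

lemma ee_apply (n k : ℕ) : (ee n : Hs 𝕜) k = if k = n then 1 else 0 := by
  unfold ee
  rw [lp.single_apply]
  by_cases h : k = n
  · subst h; simp
  · simp [h]

lemma Jf_ee_ne : ¬ (Jf (ee 0 : Hs 𝕜)) =ᵐ[mu01] 0 := by
  intro h
  have h1 : (RR (ee 0 : Hs 𝕜) : Lp ℝ 2 mu01) = 0 := by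
    rw [Lp.eq_zero_iff_ae_eq_zero]
    filter_upwards [h] with t ht
    have h2 : RCLike.re (Jf (ee 0 : Hs 𝕜) t) = RR (ee 0 : Hs 𝕜) t := by
      unfold Jf
      rw [map_sub, RCLike.ofReal_re, mul_comm, RCLike.re_ofReal_mul, RCLike.I_re, mul_zero, sub_zero]
    rw [← h2, ht]
    simp
  have h3 := RR.norm_map (ee 0 : Hs 𝕜)
  rw [h1, norm_zero, norm_ee] at h3
  exact zero_ne_one h3

section

variable {q : ℝ≥0∞} [Fact (1 ≤ q)] (hq : q ≠ ∞)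

/-- the embedding before normalisation -/
noncomputable def JQ0 : Hs 𝕜 →ₗ[𝕜] Lp 𝕜 q mu01 where
  toFun h := (Jf_memLp h q hq).toLp (Jf h)
  map_add' h h' := by
    rw [← MemLp.toLp_add, MemLp.toLp_eq_toLp_iff]
    exact Jf_add_ae h h'
  map_smul' c h := by
    rw [RingHom.id_apply, ← MemLp.toLp_const_smul, MemLp.toLp_eq_toLp_iff]
    exact Jf_smul_ae c h

lemma JQ0_ae (h : Hs 𝕜) : (JQ0 hq h : ℝ → 𝕜) =ᵐ[mu01] Jf h :=
  MemLp.coeFn_toLp (Jf_memLp h q hq)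

lemma norm_JQ0 (h : Hs 𝕜) : ‖JQ0 hq h‖ = (eLpNorm (Jf h) q mu01).toReal :=
  Lp.norm_toLp _ (Jf_memLp h q hq)

/-- the normalising constant -/
noncomputable def kap : ℝ := ‖JQ0 (𝕜 := 𝕜) hq (ee 0)‖

lemma kap_pos : 0 < kap (𝕜 := 𝕜) hq := by
  unfold kap
  rw [norm_pos_iff]
  intro h
  apply Jf_ee_ne (𝕜 := 𝕜)
  have h1 := JQ0_ae hq (ee 0 : Hs 𝕜)
  rw [h] at h1
  filter_upwards [h1, Lp.coeFn_zero 𝕜 q mu01] with t h2 h3
  rw [← h2, h3]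

lemma norm_JQ0_eq (h : Hs 𝕜) : ‖JQ0 hq h‖ = kap (𝕜 := 𝕜) hq * ‖h‖ := by
  letI : MeasurableSpace 𝕜 := borel 𝕜
  haveI : BorelSpace 𝕜 := ⟨rfl⟩
  have h1 : ‖h‖ = ‖((‖h‖ : ℝ) : 𝕜) • (ee 0 : Hs 𝕜)‖ := by
    rw [norm_smul, norm_ee, mul_one, RCLike.norm_ofReal, abs_of_nonneg (norm_nonneg _)]
  have h2 := eLpNorm_const_add_Jf (𝕜 := 𝕜) 0 h1 q
  simp only [zero_add] at h2
  have h3 : (fun t => Jf h t) = Jf h := rfl
  rw [norm_JQ0]
  have h4 := norm_JQ0 hq (((‖h‖ : ℝ) : 𝕜) • (ee 0 : Hs 𝕜))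
  rw [map_smul, norm_smul, RCLike.norm_ofReal, abs_of_nonneg (norm_nonneg _)] at h4
  have h5 : eLpNorm (Jf h) q mu01 = eLpNorm (Jf (((‖h‖ : ℝ) : 𝕜) • (ee 0 : Hs 𝕜))) q mu01 := h2
  rw [h5, ← h4, kap, mul_comm]

/-- the normalised embedding -/
noncomputable def J : Hs 𝕜 →ₗᵢ[𝕜] Lp 𝕜 q mu01 where
  toLinearMap := (((kap (𝕜 := 𝕜) hq)⁻¹ : ℝ) : 𝕜) • JQ0 hq
  norm_map' h := by
    rw [LinearMap.smul_apply, norm_smul, norm_JQ0_eq, RCLike.norm_ofReal,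
      abs_of_pos (inv_pos.2 (kap_pos hq)), ← mul_assoc, inv_mul_cancel₀ (kap_pos hq).ne', one_mul]

lemma J_ae (h : Hs 𝕜) : (J hq h : ℝ → 𝕜) =ᵐ[mu01] Jf ((((kap (𝕜 := 𝕜) hq)⁻¹ : ℝ) : 𝕜) • h) := by
  have e : J hq h = JQ0 hq ((((kap (𝕜 := 𝕜) hq)⁻¹ : ℝ) : 𝕜) • h) := by
    rw [map_smul]; rfl
  rw [e]
  exact JQ0_ae hq _

variable (𝕜 q) in
/-- the constant function one -/
noncomputable def one1 : Lp 𝕜 q mu01 := (memLp_const (1 : 𝕜)).toLp (fun _ => (1 : 𝕜))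

lemma smul_one1_ae (c : 𝕜) : (c • one1 𝕜 q : Lp 𝕜 q mu01) =ᵐ[mu01] fun _ => c := by
  filter_upwards [Lp.coeFn_smul c (one1 𝕜 q), (memLp_const (1 : 𝕜) (μ := mu01) (p := q)).coeFn_toLp]
    with t h1 h2
  rw [h1, Pi.smul_apply]
  unfold one1
  rw [h2, smul_eq_mul, mul_one]

lemma norm_one1 : ‖one1 𝕜 q‖ = 1 := by
  unfold one1
  rw [Lp.norm_toLp, eLpNorm_const _ (by have := Fact.out (p := 1 ≤ q); positivity)
    (IsProbabilityMeasure.ne_zero _)]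
  simp

lemma norm_comb_eq (c : 𝕜) (h : Hs 𝕜) : ‖c • one1 𝕜 q + J hq h‖ =
    (eLpNorm (fun t => c + Jf ((((kap (𝕜 := 𝕜) hq)⁻¹ : ℝ) : 𝕜) • h) t) q mu01).toReal := by
  rw [Lp.norm_def]
  congr 1
  apply eLpNorm_congr_ae
  filter_upwards [Lp.coeFn_add (c • one1 𝕜 q) (J hq h), smul_one1_ae (q := q) c, J_ae hq h]
    with t h1 h2 h3
  rw [h1, Pi.add_apply, h2, h3]

/-- dependence on the norm only -/
lemma norm_comb_congr (c : 𝕜) {h h' : Hs 𝕜} (hh : ‖h‖ = ‖h'‖) :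
    ‖c • one1 𝕜 q + J hq h‖ = ‖c • one1 𝕜 q + J hq h'‖ := by
  letI : MeasurableSpace 𝕜 := borel 𝕜
  haveI : BorelSpace 𝕜 := ⟨rfl⟩
  rw [norm_comb_eq, norm_comb_eq]
  congr 1
  apply eLpNorm_const_add_Jf
  rw [norm_smul, norm_smul, hh]

/-- the norm of a combination, as a function of two real numbers -/
noncomputable def NN (s t : ℝ) : ℝ := ‖((s : ℝ) : 𝕜) • one1 𝕜 q + J hq (((t : ℝ) : 𝕜) • (ee 0 : Hs 𝕜))‖

/-- **Key fact.** -/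
lemma norm_comb (c : 𝕜) (h : Hs 𝕜) : ‖c • one1 𝕜 q + J hq h‖ = NN (𝕜 := 𝕜) hq ‖c‖ ‖h‖ := by
  obtain ⟨u, hu, huc⟩ : ∃ u : 𝕜, ‖u‖ = 1 ∧ c = u * ((‖c‖ : ℝ) : 𝕜) := by
    by_cases hc : c = 0
    · exact ⟨1, by simp, by simp [hc]⟩
    · refine ⟨c / ((‖c‖ : ℝ) : 𝕜), ?_, ?_⟩
      · rw [norm_div, RCLike.norm_ofReal, abs_norm]
        exact div_self (norm_ne_zero_iff.2 hc)
      · rw [div_mul_cancel₀]
        exact RCLike.ofReal_ne_zero.2 (norm_ne_zero_iff.2 hc)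
  have hu0 : u ≠ 0 := by
    intro h0
    rw [h0, norm_zero] at hu
    exact zero_ne_one hu
  have e1 : c • one1 𝕜 q + J hq h =
      u • (((‖c‖ : ℝ) : 𝕜) • one1 𝕜 q + J hq (u⁻¹ • h)) := by
    rw [smul_add, smul_smul, ← huc, map_smul, smul_smul, mul_inv_cancel₀ hu0, one_smul]
  rw [e1, norm_smul, hu, one_mul]
  apply norm_comb_congr
  rw [norm_smul, norm_smul, norm_inv, hu, norm_ee, RCLike.norm_ofReal, abs_norm]
  simp

lemma NN_zero_right (s : ℝ) : NN (𝕜 := 𝕜) hq s 0 = |s| := by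
  unfold NN
  simp [norm_smul, norm_one1]

lemma NN_zero_left (t : ℝ) : NN (𝕜 := 𝕜) hq 0 t = |t| := by
  unfold NN
  simp [norm_smul, norm_ee, LinearIsometry.norm_map]

lemma NN_homog (a s t : ℝ) : NN (𝕜 := 𝕜) hq (a * s) (a * t) = |a| * NN (𝕜 := 𝕜) hq s t := by
  unfold NN
  rw [← RCLike.norm_ofReal (K := 𝕜) a, ← norm_smul, smul_add, smul_smul, ← map_smul, smul_smul]
  push_cast
  rfl

lemma NN_nonneg (s t : ℝ) : 0 ≤ NN (𝕜 := 𝕜) hq s t := norm_nonneg _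

lemma NN_continuous : Continuous (fun x : ℝ × ℝ => NN (𝕜 := 𝕜) hq x.1 x.2) := by
  unfold NN
  have h1 : Continuous (fun x : ℝ => ((x : ℝ) : 𝕜)) := RCLike.continuous_ofReal
  refine Continuous.norm ?_
  refine Continuous.add ?_ ?_
  · exact (h1.comp continuous_fst).smul continuous_const
  · exact (J hq).continuous.comp ((h1.comp continuous_snd).smul continuous_const)

lemma NN_convex (s t l : ℝ) (hl0 : 0 ≤ l) (hl1 : l ≤ 1) :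
    NN (𝕜 := 𝕜) hq s (l * t) ≤ (1 - l) * |s| + l * NN (𝕜 := 𝕜) hq s t := by
  have e : ((s : ℝ) : 𝕜) • one1 𝕜 q + J hq (((l * t : ℝ) : 𝕜) • (ee 0 : Hs 𝕜)) =
      (((1 - l : ℝ) : 𝕜) • (((s : ℝ) : 𝕜) • one1 𝕜 q)) +
      ((l : ℝ) : 𝕜) • (((s : ℝ) : 𝕜) • one1 𝕜 q + J hq (((t : ℝ) : 𝕜) • (ee 0 : Hs 𝕜))) := by
    rw [smul_add, smul_smul, smul_smul, ← map_smul, smul_smul, ← add_assoc, ← add_smul]
    push_cast
    congr 2
    ring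
  unfold NN
  rw [e]
  refine (norm_add_le _ _).trans ?_
  rw [norm_smul, norm_smul, norm_smul, norm_one1, RCLike.norm_ofReal, RCLike.norm_ofReal,
    RCLike.norm_ofReal, mul_one, abs_of_nonneg hl0, abs_of_nonneg (by linarith : (0:ℝ) ≤ 1 - l)]

end

end Pool.Agent.U541.WM
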