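import Mathlib
import Pool.Agent.U541.WM.C

/-!
# A vector of norm larger than one
-/

set_option autoImplicit false
set_option linter.unusedSectionVars false
set_option linter.style.haveILetI false

open MeasureTheory ProbabilityTheory Filter Topology
open scoped ENNReal NNReal

namespace Pool.Agent.U541.WM

open Pool.Agent.Helper547.Diestel (mu01 H2 G G_char)

variable {𝕜 : Type} [RCLike 𝕜]

lemma ee_orth (c d : 𝕜) {m n : ℕ} (hmn : m ≠ n) :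
    ‖c • (ee m : Hs 𝕜) + d • (ee n : Hs 𝕜)‖ ^ 2 = ‖c‖ ^ 2 + ‖d‖ ^ 2 := by
  rw [norm_add_sq (𝕜 := 𝕜)]
  have h1 : inner 𝕜 (c • (ee m : Hs 𝕜)) (d • (ee n : Hs 𝕜)) = 0 := by
    rw [inner_smul_left, inner_smul_right]
    unfold ee
    rw [lp.inner_single_left, lp.single_apply]
    simp [hmn]
  rw [h1, norm_smul, norm_smul, norm_ee, norm_ee]
  simp

/-- the elementary inequality -/
lemma elem {r x : ℝ} (hr : 2 < r) (hx : 0 ≤ x) :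
    (x ^ 2 + 1) ^ (r / 2) ≤ 2 ^ (r / 2) * ((x ^ r + 1) / 2) ∧
      ((x ^ 2 + 1) ^ (r / 2) = 2 ^ (r / 2) * ((x ^ r + 1) / 2) → x = 1) := by
  have h1 : (x ^ 2 + 1) ^ (r / 2) = 2 ^ (r / 2) * ((1/2 : ℝ) * x ^ 2 + (1/2) * 1) ^ (r / 2) := by
    rw [← Real.mul_rpow (by norm_num) (by positivity)]
    congr 1
    ring
  have h2 : (x ^ 2) ^ (r / 2) = x ^ r := by
    rw [← Real.rpow_natCast, ← Real.rpow_mul hx]
    congr 1
    push_cast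
    ring
  have hc := strictConvexOn_rpow (p := r / 2) (by linarith)
  rcases eq_or_ne (x ^ 2) 1 with h3 | h3
  · have hx1 : x = 1 := by
      exact (pow_eq_one_iff_of_nonneg hx (by norm_num)).1 h3
    subst hx1
    refine ⟨?_, fun _ => rfl⟩
    norm_num
  · have h4 := hc.2 (Set.mem_Ici.2 (sq_nonneg x)) (Set.mem_Ici.2 (zero_le_one' ℝ)) h3
      (by norm_num : (0:ℝ) < 1/2) (by norm_num : (0:ℝ) < 1/2) (by norm_num)
    simp only [smul_eq_mul] at h4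
    rw [h2, Real.one_rpow] at h4
    have h5 : (0:ℝ) < 2 ^ (r / 2) := by positivity
    have h6 : (x ^ 2 + 1) ^ (r / 2) < 2 ^ (r / 2) * ((x ^ r + 1) / 2) := by
      rw [h1]
      have := mul_lt_mul_of_pos_left h4 h5
      calc _ < _ := this
        _ = _ := by ring
    exact ⟨h6.le, fun h => absurd h h6.ne⟩

section

variable {q : ℝ≥0∞} [Fact (1 ≤ q)] (hq : q ≠ ∞)

lemma not_bounded (h : Hs 𝕜) (hh : h ≠ 0) (C : ℝ) : ¬ ∀ᵐ t ∂mu01, ‖Jf h t‖ ≤ C := by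
  intro hb
  have h1 : ∀ᵐ t ∂mu01, (RR h : ℝ → ℝ) t ∈ Set.Iic C := by
    filter_upwards [hb] with t ht
    have h2 : RCLike.re (Jf h t) = RR h t := by
      unfold Jf
      rw [map_sub, RCLike.ofReal_re, mul_comm, RCLike.re_ofReal_mul, RCLike.I_re, mul_zero, sub_zero]
    rw [Set.mem_Iic, ← h2]
    exact (le_abs_self _).trans ((RCLike.abs_re_le_norm _).trans ht)
  have h3 : (mu01.map (RR h : ℝ → ℝ)) (Set.Ioi C) = 0 := by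
    rw [Measure.map_apply_of_aemeasurable (RR_aesm h).aemeasurable measurableSet_Ioi]
    have : {a | ¬ (RR h : ℝ → ℝ) a ∈ Set.Iic C} = (RR h : ℝ → ℝ) ⁻¹' (Set.Ioi C) := by
      ext a
      simp
    rw [← this]
    exact h1
  rw [RR_law] at h3
  have hv : (NNReal.mk (‖h‖ ^ 2) (sq_nonneg _)) ≠ 0 := by
    intro h0
    have := congrArg NNReal.toReal h0
    simp at this
    exact hh this
  have h4 := gaussianReal_absolutelyContinuous' 0 hv h3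
  rw [Real.volume_Ioi] at h4
  exact ENNReal.top_ne_zero h4

lemma hinner [MeasurableSpace 𝕜] [BorelSpace 𝕜] (hq0 : q ≠ 0) (z : 𝕜) :
    ∫⁻ t', ‖z + Jf ((((kap (𝕜 := 𝕜) hq)⁻¹ : ℝ) : 𝕜) • (ee 1 : Hs 𝕜)) t'‖ₑ ^ q.toReal ∂mu01 =
      ENNReal.ofReal (NN (𝕜 := 𝕜) hq ‖z‖ 1 ^ q.toReal) := by
  have hr0 : 0 < q.toReal := ENNReal.toReal_pos hq0 hq
  have e1 := norm_comb hq z (ee 1 : Hs 𝕜)
  rw [norm_ee] at e1
  rw [← e1, norm_comb_eq]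
  set h1 : Hs 𝕜 := (((kap (𝕜 := 𝕜) hq)⁻¹ : ℝ) : 𝕜) • (ee 1 : Hs 𝕜) with hh1
  have hmem : MemLp (fun t => z + Jf h1 t) q mu01 := (memLp_const z).add (Jf_memLp h1 q hq)
  have e2 := eLpNorm_eq_lintegral_rpow_enorm_toReal (μ := mu01) (f := fun t => z + Jf h1 t) hq0 hq
  rw [← ENNReal.ofReal_rpow_of_nonneg ENNReal.toReal_nonneg hr0.le, ENNReal.ofReal_toReal hmem.2.ne,
    e2, ← ENNReal.rpow_mul, one_div, inv_mul_cancel₀ hr0.ne', ENNReal.rpow_one]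

lemma hNNm [MeasurableSpace 𝕜] [BorelSpace 𝕜] :
    Measurable (fun z : 𝕜 => ENNReal.ofReal (NN (𝕜 := 𝕜) hq ‖z‖ 1 ^ q.toReal)) := by
  have hNN : Continuous (fun z : 𝕜 => NN (𝕜 := 𝕜) hq ‖z‖ 1) :=
    Continuous.comp (g := fun x : ℝ × ℝ => NN (𝕜 := 𝕜) hq x.1 x.2)
      (f := fun z : 𝕜 => ((‖z‖ : ℝ), (1 : ℝ))) (NN_continuous hq)
      (continuous_norm.prodMk continuous_const)
  exact (hNN.measurable.pow_const _).ennreal_ofReal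

lemma hI [MeasurableSpace 𝕜] [BorelSpace 𝕜] (hq0 : q ≠ 0) :
    ∫⁻ t, ‖Jf ((((kap (𝕜 := 𝕜) hq)⁻¹ : ℝ) : 𝕜) • (ee 0 : Hs 𝕜)) t +
        Jf ((((kap (𝕜 := 𝕜) hq)⁻¹ : ℝ) : 𝕜) • (ee 1 : Hs 𝕜)) t‖ₑ ^ q.toReal ∂mu01 =
      ∫⁻ t, ENNReal.ofReal (NN (𝕜 := 𝕜) hq
        ‖Jf ((((kap (𝕜 := 𝕜) hq)⁻¹ : ℝ) : 𝕜) • (ee 0 : Hs 𝕜)) t‖ 1 ^ q.toReal) ∂mu01 := by
  have hin := hinner (𝕜 := 𝕜) hq hq0
  generalize (((kap (𝕜 := 𝕜) hq)⁻¹ : ℝ) : 𝕜) = k at *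
  have horth : ∀ c d : 𝕜, ‖c • (k • (ee 0 : Hs 𝕜)) + d • (k • (ee 1 : Hs 𝕜))‖ ^ 2 =
      ‖c • (k • (ee 0 : Hs 𝕜))‖ ^ 2 + ‖d • (k • (ee 1 : Hs 𝕜))‖ ^ 2 := by
    intro c d
    rw [smul_smul, smul_smul, ee_orth _ _ (by norm_num : (0:ℕ) ≠ 1), norm_smul,
      norm_smul (d * k), norm_ee, norm_ee, mul_one, mul_one]
  have hjoint := Jf_joint horth
  generalize k • (ee 0 : Hs 𝕜) = h0 at *
  generalize k • (ee 1 : Hs 𝕜) = h1 at *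
  have m0 := (Jf_aesm h0).aemeasurable
  have m1 := (Jf_aesm h1).aemeasurable
  have hF : Measurable (fun p : 𝕜 × 𝕜 => ‖p.1 + p.2‖ₑ ^ q.toReal) := by fun_prop
  calc ∫⁻ t, ‖Jf h0 t + Jf h1 t‖ₑ ^ q.toReal ∂mu01
      = ∫⁻ p : 𝕜 × 𝕜, ‖p.1 + p.2‖ₑ ^ q.toReal ∂(mu01.map (fun t => (Jf h0 t, Jf h1 t))) := by
        rw [lintegral_map' hF.aemeasurable (m0.prodMk m1)]
    _ = ∫⁻ z, ∫⁻ w, ‖z + w‖ₑ ^ q.toReal ∂(mu01.map (Jf h1)) ∂(mu01.map (Jf h0)) := by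
        rw [hjoint, lintegral_prod _ hF.aemeasurable]
    _ = ∫⁻ z, ENNReal.ofReal (NN (𝕜 := 𝕜) hq ‖z‖ 1 ^ q.toReal) ∂(mu01.map (Jf h0)) := by
        apply lintegral_congr
        intro z
        rw [← hin z, lintegral_map' (by fun_prop) m1]
    _ = _ := by
        rw [lintegral_map' (hNNm hq).aemeasurable m0]

include hq in
lemma lint_eq (hq0 : q ≠ 0) (f : ℝ → 𝕜) (hmem : MemLp f q mu01) (c : ℝ) (hc : 0 ≤ c)
    (h : c = (eLpNorm f q mu01).toReal) : ∫⁻ t, ‖f t‖ₑ ^ q.toReal ∂mu01 =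
      ENNReal.ofReal (c ^ q.toReal) := by
  have hr0 : 0 < q.toReal := ENNReal.toReal_pos hq0 hq
  have e3 := eLpNorm_eq_lintegral_rpow_enorm_toReal (μ := mu01) (f := f) hq0 hq
  have e4 : eLpNorm f q mu01 = ENNReal.ofReal c := by
    rw [h, ENNReal.ofReal_toReal hmem.2.ne]
  have e5 : ∫⁻ t, ‖f t‖ₑ ^ q.toReal ∂mu01 = (eLpNorm f q mu01) ^ q.toReal := by
    rw [e3, ← ENNReal.rpow_mul, one_div, inv_mul_cancel₀ hr0.ne', ENNReal.rpow_one]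
  rw [e5, e4, ENNReal.ofReal_rpow_of_nonneg hc hr0.le]

lemma hval (hq0 : q ≠ 0) :
    ∫⁻ t, ‖Jf ((((kap (𝕜 := 𝕜) hq)⁻¹ : ℝ) : 𝕜) • (ee 0 : Hs 𝕜)) t +
        Jf ((((kap (𝕜 := 𝕜) hq)⁻¹ : ℝ) : 𝕜) • (ee 1 : Hs 𝕜)) t‖ₑ ^ q.toReal ∂mu01 =
      ENNReal.ofReal (2 ^ (q.toReal / 2)) := by
  have e1 : ‖J hq (ee 0 + ee 1 : Hs 𝕜)‖ = Real.sqrt 2 := by
    rw [LinearIsometry.norm_map]
    have := ee_orth (𝕜 := 𝕜) 1 1 (by norm_num : (0:ℕ) ≠ 1)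
    rw [one_smul, one_smul, norm_one] at this
    rw [← Real.sqrt_sq (norm_nonneg (ee 0 + ee 1 : Hs 𝕜)), this]
    norm_num
  have e0 := J_ae hq (ee 0 + ee 1 : Hs 𝕜)
  rw [smul_add] at e0
  generalize (((kap (𝕜 := 𝕜) hq)⁻¹ : ℝ) : 𝕜) • (ee 0 : Hs 𝕜) = h0 at *
  generalize (((kap (𝕜 := 𝕜) hq)⁻¹ : ℝ) : 𝕜) • (ee 1 : Hs 𝕜) = h1 at *
  have e2 : ‖J hq (ee 0 + ee 1 : Hs 𝕜)‖ = (eLpNorm (fun t => Jf h0 t + Jf h1 t) q mu01).toReal := by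
    rw [Lp.norm_def]
    congr 1
    apply eLpNorm_congr_ae
    filter_upwards [e0, Jf_add_ae h0 h1] with t h3 h4
    rw [h3, ← h4]
  rw [lint_eq hq hq0 (fun t => Jf h0 t + Jf h1 t) ((Jf_memLp h0 q hq).add (Jf_memLp h1 q hq))
    (Real.sqrt 2) (Real.sqrt_nonneg _) (by rw [← e2, e1])]
  congr 1
  rw [Real.sqrt_eq_rpow, ← Real.rpow_mul (by norm_num)]
  congr 1
  ring

lemma hone (hq0 : q ≠ 0) :
    ∫⁻ t, ‖Jf ((((kap (𝕜 := 𝕜) hq)⁻¹ : ℝ) : 𝕜) • (ee 0 : Hs 𝕜)) t‖ₑ ^ q.toReal ∂mu01 = 1 := by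
  have e1 : ‖J hq (ee 0 : Hs 𝕜)‖ = 1 := by rw [LinearIsometry.norm_map, norm_ee]
  have e0 := J_ae hq (ee 0 : Hs 𝕜)
  generalize (((kap (𝕜 := 𝕜) hq)⁻¹ : ℝ) : 𝕜) • (ee 0 : Hs 𝕜) = h0 at *
  have e2 : ‖J hq (ee 0 : Hs 𝕜)‖ = (eLpNorm (fun t => Jf h0 t) q mu01).toReal := by
    rw [Lp.norm_def]
    congr 1
    exact eLpNorm_congr_ae e0
  rw [lint_eq hq hq0 (fun t => Jf h0 t) (Jf_memLp h0 q hq) 1 zero_le_one (by rw [← e2, e1])]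
  simp

lemma NN_le_of_not_big (hcon : ∀ s b : ℝ, 0 ≤ s → 0 ≤ b → s ^ 2 + b ^ 2 = 1 →
    NN (𝕜 := 𝕜) hq s b ≤ 1) (x : ℝ) (hx : 0 ≤ x) :
    NN (𝕜 := 𝕜) hq x 1 ≤ Real.sqrt (x ^ 2 + 1) := by
  set a := Real.sqrt (x ^ 2 + 1) with ha
  have hapos : 0 < a := Real.sqrt_pos.2 (by positivity)
  have hasq : a ^ 2 = x ^ 2 + 1 := Real.sq_sqrt (by positivity)
  have h3 := NN_homog (𝕜 := 𝕜) hq a (x / a) (1 / a)
  rw [mul_div_cancel₀ _ hapos.ne', mul_div_cancel₀ _ hapos.ne'] at h3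
  rw [h3, abs_of_pos hapos]
  have h4 := hcon (x / a) (1 / a) (by positivity) (by positivity) (by
    rw [div_pow, div_pow, ← add_div, one_pow, ← hasq]
    exact div_self (by positivity))
  exact mul_le_of_le_one_right hapos.le h4

theorem exists_big (h2 : 2 < q) : ∃ s b : ℝ, 0 ≤ s ∧ 0 ≤ b ∧ s ^ 2 + b ^ 2 = 1 ∧
    1 < NN (𝕜 := 𝕜) hq s b := by
  by_contra hcon
  push Not at hcon
  have hle := NN_le_of_not_big hq hcon
  have hr2 : 2 < q.toReal := by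
    have := (ENNReal.toReal_lt_toReal (by norm_num) hq).2 h2
    simpa using this
  have hq0 : q ≠ 0 := (lt_trans (by norm_num) h2).ne'
  letI : MeasurableSpace 𝕜 := borel 𝕜
  haveI : BorelSpace 𝕜 := ⟨rfl⟩
  have hIv := hI (𝕜 := 𝕜) hq hq0
  rw [hval hq hq0] at hIv
  have hone' := hone (𝕜 := 𝕜) hq hq0
  have hne : (((kap (𝕜 := 𝕜) hq)⁻¹ : ℝ) : 𝕜) • (ee 0 : Hs 𝕜) ≠ 0 := by
    intro h3
    have := congrArg norm h3
    rw [norm_smul, norm_ee, mul_one, norm_zero, RCLike.norm_ofReal,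
      abs_of_pos (inv_pos.2 (kap_pos hq))] at this
    exact (inv_pos.2 (kap_pos (𝕜 := 𝕜) hq)).ne' this
  generalize (((kap (𝕜 := 𝕜) hq)⁻¹ : ℝ) : 𝕜) • (ee 0 : Hs 𝕜) = h0 at *
  generalize q.toReal = r at *
  have hr0 : 0 < r := by linarith
  have m0 : AEMeasurable (Jf h0) mu01 := (Jf_aesm h0).aemeasurable
  let g1 : ℝ → ℝ≥0∞ := fun t => ENNReal.ofReal ((‖Jf h0 t‖ ^ 2 + 1) ^ (r / 2))
  let g2 : ℝ → ℝ≥0∞ := fun t => ENNReal.ofReal (2 ^ (r / 2) * ((‖Jf h0 t‖ ^ r + 1) / 2))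
  have hg12 : g1 ≤ᵐ[mu01] g2 := Eventually.of_forall fun t =>
    ENNReal.ofReal_le_ofReal (elem hr2 (norm_nonneg _)).1
  have hg2 : ∫⁻ t, g2 t ∂mu01 = ENNReal.ofReal (2 ^ (r / 2)) := by
    have e1 : ∀ t, g2 t = ENNReal.ofReal (2 ^ (r / 2) / 2) * (‖Jf h0 t‖ₑ ^ r + 1) := by
      intro t
      have e2 : ‖Jf h0 t‖ₑ ^ r + 1 = ENNReal.ofReal (‖Jf h0 t‖ ^ r + 1) := by
        rw [ENNReal.ofReal_add (by positivity) (by norm_num), ENNReal.ofReal_one,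
          ← ENNReal.ofReal_rpow_of_nonneg (norm_nonneg _) hr0.le, ofReal_norm]
      rw [e2, ← ENNReal.ofReal_mul (by positivity)]
      show ENNReal.ofReal _ = _
      congr 1
      ring
    simp_rw [e1]
    rw [lintegral_const_mul'' _ (by
      apply AEMeasurable.add_const
      exact (m0.enorm).pow_const _), lintegral_add_right _ measurable_const, hone']
    simp only [lintegral_const, measure_univ, mul_one]
    rw [show (1 : ℝ≥0∞) + 1 = ENNReal.ofReal 2 by norm_num, ← ENNReal.ofReal_mul (by positivity)]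
    congr 1
    ring
  have hg1 : ENNReal.ofReal (2 ^ (r / 2)) ≤ ∫⁻ t, g1 t ∂mu01 := by
    rw [hIv]
    apply lintegral_mono
    intro t
    apply ENNReal.ofReal_le_ofReal
    have h3 := hle ‖Jf h0 t‖ (norm_nonneg _)
    calc NN (𝕜 := 𝕜) hq ‖Jf h0 t‖ 1 ^ r ≤ (Real.sqrt (‖Jf h0 t‖ ^ 2 + 1)) ^ r :=
          Real.rpow_le_rpow (NN_nonneg hq _ _) h3 hr0.le
      _ = _ := by
          rw [Real.sqrt_eq_rpow, ← Real.rpow_mul (by positivity)]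
          congr 1
          ring
  have hae : g1 =ᵐ[mu01] g2 := by
    apply ae_eq_of_ae_le_of_lintegral_le hg12
    · exact ne_top_of_le_ne_top (by rw [hg2]; exact ENNReal.ofReal_ne_top) (lintegral_mono_ae hg12)
    · apply AEMeasurable.ennreal_ofReal
      exact (((m0.norm.pow_const _).add_const _).div_const _).const_mul _
    · rw [hg2]; exact hg1
  refine not_bounded h0 hne 1 ?_
  filter_upwards [hae] with t ht
  have e1 : (‖Jf h0 t‖ ^ 2 + 1) ^ (r / 2) = 2 ^ (r / 2) * ((‖Jf h0 t‖ ^ r + 1) / 2) :=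
    (ENNReal.ofReal_eq_ofReal_iff (by positivity) (by positivity)).1 ht
  exact ((elem hr2 (norm_nonneg _)).2 e1).le

end

end Pool.Agent.U541.WM
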