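import Mathlib
import Pool.Agent.U541.WM.D

/-!
# An operator from the Hilbert space into `L_q[0,1]`, `q > 2`, which does not attain its norm
-/

set_option autoImplicit false
set_option linter.unusedSectionVars false

open MeasureTheory ProbabilityTheory Filter Topology
open scoped ENNReal NNReal

namespace Pool.Agent.U541.WM

open Pool.Agent.Helper547.Diestel (mu01 H2 G G_char)

variable {𝕜 : Type} [RCLike 𝕜]

/-- the weights -/
noncomputable def wt (n : ℕ) : ℝ := 1 - 1 / ((n : ℝ) + 2)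

lemma wt_pos (n : ℕ) : 0 < wt n := by
  unfold wt
  have : (0:ℝ) ≤ n := Nat.cast_nonneg n
  rw [sub_pos, div_lt_one (by linarith)]
  linarith

lemma wt_lt_one (n : ℕ) : wt n < 1 := by
  unfold wt
  have : (0:ℝ) ≤ n := Nat.cast_nonneg n
  have : 0 < 1 / ((n : ℝ) + 2) := by positivity
  linarith

lemma wt_tendsto : Tendsto wt atTop (𝓝 1) := by
  have h1 : Tendsto (fun n : ℕ => 1 / ((n : ℝ) + 2)) atTop (𝓝 0) := by
    have := tendsto_one_div_add_atTop_nhds_zero_nat (𝕜 := ℝ)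
    have h2 := this.comp (tendsto_add_atTop_nat 1)
    refine h2.congr fun n => ?_
    simp only [Function.comp_apply]
    push_cast
    congr 1
    ring
  have h2 := (tendsto_const_nhds (x := (1:ℝ))).sub h1
  rw [sub_zero] at h2
  exact h2

lemma hasSum_tail (h : Hs 𝕜) : HasSum (fun n => ‖h (n + 1)‖ ^ 2) (‖h‖ ^ 2 - ‖h 0‖ ^ 2) := by
  have := (hasSum_nat_add_iff' (f := fun n => ‖h n‖ ^ 2) 1).2 (hasSum_sq h)
  simpa using this

lemma D_mem (h : Hs 𝕜) : Memℓp (fun n => ((wt n : ℝ) : 𝕜) * h (n + 1)) 2 := by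
  refine memℓp_gen ?_
  refine Summable.of_nonneg_of_le (fun n => by positivity) (fun n => ?_) (hasSum_tail h).summable
  simp only [ENNReal.toReal_ofNat, Real.rpow_ofNat]
  rw [norm_mul, RCLike.norm_ofReal, abs_of_pos (wt_pos n), mul_pow]
  have h1 := wt_pos n
  have h2 := wt_lt_one n
  exact mul_le_of_le_one_left (by positivity) (pow_le_one₀ h1.le h2.le)

/-- weighted shift, as a linear map -/
noncomputable def D0 : Hs 𝕜 →ₗ[𝕜] Hs 𝕜 where
  toFun h := ⟨fun n => ((wt n : ℝ) : 𝕜) * h (n + 1), D_mem h⟩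
  map_add' h h' := by
    apply lp.ext
    funext k
    simp only [lp.coeFn_add, Pi.add_apply, mul_add]
  map_smul' c h := by
    apply lp.ext
    funext k
    simp only [lp.coeFn_smul, Pi.smul_apply, smul_eq_mul, RingHom.id_apply]
    ring

lemma D0_apply (h : Hs 𝕜) (n : ℕ) : D0 h n = ((wt n : ℝ) : 𝕜) * h (n + 1) := rfl

lemma norm_D0_sq (h : Hs 𝕜) : HasSum (fun n => (wt n) ^ 2 * ‖h (n + 1)‖ ^ 2) (‖D0 h‖ ^ 2) := by
  have h1 : (fun n => (wt n) ^ 2 * ‖h (n + 1)‖ ^ 2) = fun n => ‖D0 h n‖ ^ 2 := by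
    funext n
    rw [D0_apply, norm_mul, RCLike.norm_ofReal, abs_of_pos (wt_pos n), mul_pow]
  rw [h1]
  exact hasSum_sq (D0 h)

lemma norm_D0_le (h : Hs 𝕜) : ‖D0 h‖ ^ 2 ≤ ‖h‖ ^ 2 - ‖h 0‖ ^ 2 := by
  refine hasSum_le (fun n => ?_) (norm_D0_sq h) (hasSum_tail h)
  exact mul_le_of_le_one_left (by positivity) (pow_le_one₀ (wt_pos n).le (wt_lt_one n).le)

lemma norm_D0_lt (h : Hs 𝕜) (n : ℕ) (hn : h (n + 1) ≠ 0) : ‖D0 h‖ ^ 2 < ‖h‖ ^ 2 - ‖h 0‖ ^ 2 := by
  refine hasSum_lt (i := n) (fun n => ?_) ?_ (norm_D0_sq h) (hasSum_tail h)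
  · exact mul_le_of_le_one_left (by positivity) (pow_le_one₀ (wt_pos n).le (wt_lt_one n).le)
  · have h1 : 0 < ‖h (n + 1)‖ ^ 2 := by
      have := norm_pos_iff.2 hn
      positivity
    exact mul_lt_of_lt_one_left h1 (pow_lt_one₀ (wt_pos n).le (wt_lt_one n) (by norm_num))

/-- weighted shift -/
noncomputable def DD : Hs 𝕜 →L[𝕜] Hs 𝕜 := D0.mkContinuous 1 fun h => by
  rw [one_mul]
  have := norm_D0_le h
  exact (pow_le_pow_iff_left₀ (norm_nonneg _) (norm_nonneg _) (by norm_num : (2:ℕ) ≠ 0)).1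
    (by nlinarith [sq_nonneg ‖h 0‖])

lemma DD_apply (h : Hs 𝕜) : DD h = D0 h := rfl

lemma DD_ee0 : DD (ee 0 : Hs 𝕜) = 0 := by
  rw [DD_apply]
  apply lp.ext
  funext k
  rw [D0_apply, ee_apply]
  simp

lemma DD_ee (n : ℕ) : DD (ee (n + 1) : Hs 𝕜) = ((wt n : ℝ) : 𝕜) • ee n := by
  rw [DD_apply]
  apply lp.ext
  funext k
  rw [D0_apply, ee_apply, lp.coeFn_smul, Pi.smul_apply, ee_apply, smul_eq_mul]
  by_cases h : k = n
  · subst h; simp
  · simp [h]

section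

variable {q : ℝ≥0∞} [Fact (1 ≤ q)] (hq : q ≠ ∞)

/-- the operator -/
noncomputable def UU : Hs 𝕜 →L[𝕜] Lp 𝕜 q mu01 :=
  (lp.evalCLM 𝕜 (fun _ : ℕ => 𝕜) 2 0).smulRight (one1 𝕜 q) +
    (J hq).toContinuousLinearMap.comp DD

lemma UU_apply (h : Hs 𝕜) : UU hq h = (h 0) • one1 𝕜 q + J hq (DD h) := rfl

attribute [local irreducible] NN

include hq in
theorem exists_U (h2 : 2 < q) : ∃ (U : Hs 𝕜 →L[𝕜] Lp 𝕜 q mu01) (M s b : ℝ), 0 < s ∧ 0 < b ∧
    s ^ 2 + b ^ 2 = 1 ∧ 0 < M ∧ (∀ h, ‖h‖ = 1 → ‖U h‖ < M) ∧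
    Tendsto (fun n => ‖U (((s : ℝ) : 𝕜) • ee 0 + ((b : ℝ) : 𝕜) • ee (n + 1))‖) atTop (𝓝 M) := by
  have hcomp : IsCompact {x : ℝ × ℝ | 0 ≤ x.1 ∧ 0 ≤ x.2 ∧ x.1 ^ 2 + x.2 ^ 2 = 1} := by
    apply Metric.isCompact_of_isClosed_isBounded
    · refine (isClosed_le continuous_const continuous_fst).inter
        ((isClosed_le continuous_const continuous_snd).inter ?_)
      exact isClosed_eq (by fun_prop) continuous_const
    · rw [isBounded_iff_forall_norm_le]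
      refine ⟨1, ?_⟩
      rintro ⟨x, y⟩ ⟨hx, hy, hxy⟩
      simp only at hx hy hxy
      rw [Prod.norm_mk, max_le_iff, Real.norm_eq_abs, Real.norm_eq_abs, abs_of_nonneg hx,
        abs_of_nonneg hy]
      constructor <;> nlinarith
  obtain ⟨s1, b1, hs1, hb1, hsb1, hbig⟩ := exists_big (𝕜 := 𝕜) hq h2
  obtain ⟨⟨s, b⟩, ⟨hs, hb, hsb⟩, hmax⟩ := hcomp.exists_isMaxOn ⟨(s1, b1), hs1, hb1, hsb1⟩
    (NN_continuous (𝕜 := 𝕜) hq).continuousOn
  simp only at hs hb hsb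
  set M := NN (𝕜 := 𝕜) hq s b with hM
  have hmax' : ∀ x y : ℝ, 0 ≤ x → 0 ≤ y → x ^ 2 + y ^ 2 = 1 → NN (𝕜 := 𝕜) hq x y ≤ M :=
    fun x y hx hy hxy => hmax (show (x, y) ∈ _ from ⟨hx, hy, hxy⟩)
  have hM1 : 1 < M := hbig.trans_le (hmax' s1 b1 hs1 hb1 hsb1)
  have hs0 : 0 < s := by
    refine lt_of_le_of_ne hs fun h0 => ?_
    rw [← h0] at hsb hM
    have : b = 1 := by nlinarith
    rw [this, NN_zero_left, abs_one] at hM
    linarith
  have hb0 : 0 < b := by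
    refine lt_of_le_of_ne hb fun h0 => ?_
    rw [← h0] at hsb hM
    have : s = 1 := by nlinarith
    rw [this, NN_zero_right, abs_one] at hM
    linarith
  refine ⟨UU hq, M, s, b, hs0, hb0, hsb, by linarith, ?_, ?_⟩
  · intro h hh
    rw [UU_apply, norm_comb, DD_apply]
    by_cases hz : ∃ n, h (n + 1) ≠ 0
    · obtain ⟨n, hn⟩ := hz
      have h3 := norm_D0_lt h n hn
      rw [hh, one_pow] at h3
      set t := ‖D0 h‖ with ht
      have ht0 : 0 ≤ t := norm_nonneg _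
      have ha0 : 0 ≤ ‖h 0‖ := norm_nonneg _
      set y := Real.sqrt (1 - ‖h 0‖ ^ 2) with hy
      have hpos : 0 < 1 - ‖h 0‖ ^ 2 := lt_of_le_of_lt (sq_nonneg t) h3
      have hy0 : 0 < y := Real.sqrt_pos.2 hpos
      have hysq : y ^ 2 = 1 - ‖h 0‖ ^ 2 := Real.sq_sqrt hpos.le
      have hty : t < y := by nlinarith
      have h4 := NN_convex (𝕜 := 𝕜) hq ‖h 0‖ y (t / y) (by positivity) (by
        rw [div_le_one hy0]; exact hty.le)
      rw [div_mul_cancel₀ _ hy0.ne', abs_of_nonneg ha0] at h4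
      have h5 := hmax' ‖h 0‖ y ha0 hy0.le (by rw [hysq]; ring)
      have h6 : t / y < 1 := by rw [div_lt_one hy0]; exact hty
      have h7 : 0 ≤ t / y := by positivity
      have h8 : ‖h 0‖ < 1 := by nlinarith
      calc NN (𝕜 := 𝕜) hq ‖h 0‖ t ≤ (1 - t / y) * ‖h 0‖ + t / y * NN (𝕜 := 𝕜) hq ‖h 0‖ y := h4
        _ ≤ (1 - t / y) * ‖h 0‖ + t / y * M := by gcongr
        _ < (1 - t / y) * M + t / y * M := by
          have : (1 - t / y) * ‖h 0‖ < (1 - t / y) * M :=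
            mul_lt_mul_of_pos_left (by linarith) (by linarith)
          linarith
        _ = M := by ring
    · push Not at hz
      have h3 : D0 h = 0 := by
        apply lp.ext
        funext k
        rw [D0_apply, hz k, mul_zero]
        rfl
      rw [h3, norm_zero, NN_zero_right, abs_norm]
      have h4 : ‖h 0‖ ^ 2 ≤ 1 := by
        have := norm_D0_le h
        rw [hh] at this
        nlinarith [sq_nonneg ‖D0 h‖]
      have : ‖h 0‖ ≤ 1 := by nlinarith [norm_nonneg (h 0)]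
      linarith
  · have h3 : ∀ n, ‖UU hq (((s : ℝ) : 𝕜) • (ee 0 : Hs 𝕜) + ((b : ℝ) : 𝕜) • (ee (n + 1) : Hs 𝕜))‖ =
        NN (𝕜 := 𝕜) hq s (b * wt n) := by
      intro n
      rw [UU_apply, norm_comb, map_add, map_smul, map_smul, DD_ee0, DD_ee, smul_zero, zero_add,
        norm_smul, norm_smul, norm_ee, RCLike.norm_ofReal, RCLike.norm_ofReal, abs_of_pos hb0,
        abs_of_pos (wt_pos n), mul_one]
      congr 1
      rw [lp.coeFn_add, Pi.add_apply, lp.coeFn_smul, lp.coeFn_smul, Pi.smul_apply, Pi.smul_apply,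
        ee_apply, ee_apply]
      simp [abs_of_pos hs0]
    simp_rw [h3]
    have h4 : Tendsto (fun n => (s, b * wt n)) atTop (𝓝 (s, b)) := by
      apply Tendsto.prodMk_nhds tendsto_const_nhds
      have := wt_tendsto.const_mul b
      rwa [mul_one] at this
    exact Tendsto.comp (g := fun x : ℝ × ℝ => NN (𝕜 := 𝕜) hq x.1 x.2)
      (f := fun n => (s, b * wt n)) ((NN_continuous (𝕜 := 𝕜) hq).tendsto (s, b)) h4

end

end Pool.Agent.U541.WM
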