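import Mathlib
import Pool.Agent.Helper547.Diestel.Gauss

/-!
# The pairing between `L_p` and `L_q`, and transposed operators
-/

set_option autoImplicit false
set_option linter.unusedSectionVars false

open MeasureTheory ProbabilityTheory Filter Topology
open scoped ENNReal NNReal

namespace Pool.Agent.U541.WM

open Pool.Agent.Helper547.Diestel (mu01)

variable {𝕜 : Type} [RCLike 𝕜]
variable {p q : ℝ≥0∞} [Fact (1 ≤ p)] [Fact (1 ≤ q)] [hpq : p.HolderConjugate q]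

/-- the bilinear pairing `(f, g) ↦ ∫ f g` -/
noncomputable def BB : Lp 𝕜 p mu01 →L[𝕜] Lp 𝕜 q mu01 →L[𝕜] 𝕜 :=
  (ContinuousLinearMap.mul 𝕜 𝕜).lpPairing mu01 p q

lemma BB_apply (f : Lp 𝕜 p mu01) (g : Lp 𝕜 q mu01) : BB f g = ∫ x, f x * g x ∂mu01 :=
  ContinuousLinearMap.lpPairing_eq_integral _ f g

lemma norm_BB_le (f : Lp 𝕜 p mu01) (g : Lp 𝕜 q mu01) : ‖BB f g‖ ≤ ‖f‖ * ‖g‖ := by
  have h1 : BB f g = ∫ x, ((ContinuousLinearMap.mul 𝕜 𝕜).holder 1 f g) x ∂mu01 := by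
    rw [BB_apply]
    apply integral_congr_ae
    filter_upwards [(ContinuousLinearMap.mul 𝕜 𝕜).coeFn_holder (r := 1) f g] with x hx
    rw [hx]
    rfl
  rw [h1, ← L1.integral_eq_integral]
  refine (L1.norm_integral_le _).trans ?_
  have h2 := (ContinuousLinearMap.mul 𝕜 𝕜).nnnorm_holder_apply_apply_le (r := 1) f g
  have h3 : ‖(ContinuousLinearMap.mul 𝕜 𝕜).holder 1 f g‖ ≤
      ‖ContinuousLinearMap.mul 𝕜 𝕜‖ * ‖f‖ * ‖g‖ := by
    exact_mod_cast h2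
  refine h3.trans ?_
  have h4 : ‖ContinuousLinearMap.mul 𝕜 𝕜‖ ≤ 1 := ContinuousLinearMap.opNorm_mul_le 𝕜 𝕜
  have h5 : 0 ≤ ‖f‖ * ‖g‖ := by positivity
  calc ‖ContinuousLinearMap.mul 𝕜 𝕜‖ * ‖f‖ * ‖g‖ = ‖ContinuousLinearMap.mul 𝕜 𝕜‖ * (‖f‖ * ‖g‖) := by
        ring
    _ ≤ 1 * (‖f‖ * ‖g‖) := by gcongr
    _ = _ := one_mul _

/-- norming elements -/
lemma exists_norming (hp : p ≠ ∞) (hq : q ≠ ∞) (hq2 : 2 ≤ q) (g : Lp 𝕜 q mu01) (hg : ‖g‖ = 1) :
    ∃ f : Lp 𝕜 p mu01, ‖f‖ = 1 ∧ BB f g = 1 := by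
  have hR : p.toReal.HolderConjugate q.toReal := ENNReal.HolderConjugate.toReal_of_ne_top hp hq
  set r := p.toReal with hr
  set s := q.toReal with hs
  have hs2 : 2 ≤ s := by
    have := ENNReal.toReal_mono hq hq2
    simpa using this
  have hr0 : 0 < r := hR.pos
  have hs0 : 0 < s := by linarith
  have hp0 : p ≠ 0 := fun h => by rw [hr, h] at hr0; simp at hr0
  have hq0 : q ≠ 0 := fun h => by rw [hs, h] at hs0; simp at hs0
  have hmul : (s - 1) * r = s := by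
    have := hR.mul_eq_add
    linarith
  let f0 : ℝ → 𝕜 := fun t => (starRingEnd 𝕜) (g t) * ((‖g t‖ ^ (s - 2) : ℝ) : 𝕜)
  have hgm : AEStronglyMeasurable (g : ℝ → 𝕜) mu01 := Lp.aestronglyMeasurable g
  have hf0m : AEStronglyMeasurable f0 mu01 := by
    refine AEStronglyMeasurable.mul ?_ ?_
    · exact RCLike.continuous_conj.comp_aestronglyMeasurable hgm
    · refine RCLike.continuous_ofReal.comp_aestronglyMeasurable ?_
      exact (Real.continuous_rpow_const (by linarith)).comp_aestronglyMeasurable hgm.norm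
  have hnorm : ∀ t, ‖f0 t‖ = ‖g t‖ ^ (s - 1) := by
    intro t
    show ‖(starRingEnd 𝕜) (g t) * ((‖g t‖ ^ (s - 2) : ℝ) : 𝕜)‖ = _
    rw [norm_mul, RCLike.norm_conj, RCLike.norm_ofReal, abs_of_nonneg (by positivity)]
    rcases eq_or_ne ‖g t‖ 0 with h | h
    · rw [h, zero_mul, Real.zero_rpow (by linarith)]
    · rw [show s - 1 = 1 + (s - 2) by ring, Real.rpow_add (lt_of_le_of_ne (norm_nonneg _) h.symm),
        Real.rpow_one]
  have hmulg : ∀ t, f0 t * g t = ((‖g t‖ ^ s : ℝ) : 𝕜) := by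
    intro t
    show (starRingEnd 𝕜) (g t) * ((‖g t‖ ^ (s - 2) : ℝ) : 𝕜) * g t = _
    rw [mul_right_comm, RCLike.conj_mul]
    rw [← RCLike.ofReal_pow, ← RCLike.ofReal_mul]
    congr 1
    rcases eq_or_ne ‖g t‖ 0 with h | h
    · rw [h, Real.zero_rpow hs0.ne']; simp
    · rw [← Real.rpow_natCast, ← Real.rpow_add (lt_of_le_of_ne (norm_nonneg _) h.symm)]
      congr 1
      push_cast
      ring
  have hgint : ∫⁻ t, ‖g t‖ₑ ^ s ∂mu01 = 1 := by
    have e3 := eLpNorm_eq_lintegral_rpow_enorm_toReal (μ := mu01) (f := (g : ℝ → 𝕜)) hq0 hq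
    have e4 : eLpNorm (g : ℝ → 𝕜) q mu01 = 1 := by
      rw [← ENNReal.ofReal_toReal (Lp.memLp g).2.ne, ← Lp.norm_def, hg, ENNReal.ofReal_one]
    have e5 : ∫⁻ t, ‖g t‖ₑ ^ s ∂mu01 = (eLpNorm (g : ℝ → 𝕜) q mu01) ^ s := by
      rw [e3, ← hs, ← ENNReal.rpow_mul, one_div, inv_mul_cancel₀ hs0.ne', ENNReal.rpow_one]
    rw [e5, e4, ENNReal.one_rpow]
  have hf0n : eLpNorm f0 p mu01 = 1 := by
    rw [eLpNorm_eq_lintegral_rpow_enorm_toReal hp0 hp, ← hr]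
    have e1 : ∀ t, ‖f0 t‖ₑ ^ r = ‖g t‖ₑ ^ s := by
      intro t
      have e2 : ‖f0 t‖ₑ = ‖g t‖ₑ ^ (s - 1) := by
        rw [← ofReal_norm, hnorm, ← ENNReal.ofReal_rpow_of_nonneg (norm_nonneg _) (by linarith),
          ofReal_norm]
      rw [e2, ← ENNReal.rpow_mul, hmul]
    simp_rw [e1]
    rw [hgint, ENNReal.one_rpow]
  have hmem : MemLp f0 p mu01 := ⟨hf0m, by rw [hf0n]; exact ENNReal.one_lt_top⟩
  refine ⟨hmem.toLp f0, ?_, ?_⟩
  · rw [Lp.norm_toLp, hf0n]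
    rfl
  · rw [BB_apply]
    have e1 : ∫ x, (hmem.toLp f0) x * g x ∂mu01 = ∫ x, ((‖g x‖ ^ s : ℝ) : 𝕜) ∂mu01 := by
      apply integral_congr_ae
      filter_upwards [hmem.coeFn_toLp] with x hx
      rw [hx, hmulg]
    rw [e1, integral_ofReal]
    have e2 : ∫ x, ‖g x‖ ^ s ∂mu01 = 1 := by
      rw [integral_eq_lintegral_of_nonneg_ae (Eventually.of_forall fun x => by positivity)
        ((Real.continuous_rpow_const hs0.le).comp_aestronglyMeasurable hgm.norm)]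
      have e3 : ∀ x, ENNReal.ofReal (‖g x‖ ^ s) = ‖g x‖ₑ ^ s := by
        intro x
        rw [← ENNReal.ofReal_rpow_of_nonneg (norm_nonneg _) hs0.le, ofReal_norm]
      simp_rw [e3, hgint]
      rfl
    rw [e2]
    simp

end Pool.Agent.U541.WM
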