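import Mathlib
import Pool.Agent.U541.WM.E
import Pool.Agent.U541.WM.F

/-!
# The weak maximizing property fails for `(L_p, L_q)`, `p ≤ 2 ≤ q`
-/

set_option autoImplicit false
set_option linter.unusedSectionVars false

open MeasureTheory ProbabilityTheory Filter Topology
open scoped ENNReal NNReal InnerProductSpace

namespace Pool.Agent.U541.WM

open Pool.Agent.Helper547.Diestel (mu01)

variable {𝕜 : Type} [RCLike 𝕜]

/-- the linear isometry from the dual of `ℓ²` to `ℓ²`: `φ ↦ (φ(e_n))_n` -/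
noncomputable def Psi : StrongDual 𝕜 (Hs 𝕜) →ₗᵢ[𝕜] Hs 𝕜 where
  toFun φ := star ((InnerProductSpace.toDual 𝕜 (Hs 𝕜)).symm φ)
  map_add' φ ψ := by rw [map_add, star_add]
  map_smul' c φ := by
    rw [LinearIsometryEquiv.map_smulₛₗ, star_smul, RingHom.id_apply]
    simp
  norm_map' φ := by
    show ‖star ((InnerProductSpace.toDual 𝕜 (Hs 𝕜)).symm φ)‖ = ‖φ‖
    rw [norm_star, LinearIsometryEquiv.norm_map]

lemma Psi_apply (φ : StrongDual 𝕜 (Hs 𝕜)) :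
    Psi φ = star ((InnerProductSpace.toDual 𝕜 (Hs 𝕜)).symm φ) := rfl

/-- functionals on the Hilbert space attain their norms -/
lemma attain (φ : StrongDual 𝕜 (Hs 𝕜)) (hφ : φ ≠ 0) : ∃ h : Hs 𝕜, ‖h‖ = 1 ∧ ‖φ h‖ = ‖φ‖ := by
  set v := (InnerProductSpace.toDual 𝕜 (Hs 𝕜)).symm φ with hv
  have hvn : ‖v‖ = ‖φ‖ := by rw [hv, LinearIsometryEquiv.norm_map]
  have hpos : 0 < ‖v‖ := by rw [hvn]; exact norm_pos_iff.2 hφ
  have hφv : ∀ h, φ h = ⟪v, h⟫_𝕜 := by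
    intro h
    rw [hv, InnerProductSpace.toDual_symm_apply]
  refine ⟨((‖v‖⁻¹ : ℝ) : 𝕜) • v, ?_, ?_⟩
  · rw [norm_smul, RCLike.norm_ofReal, abs_of_pos (inv_pos.2 hpos), inv_mul_cancel₀ hpos.ne']
  · rw [hφv, inner_smul_right, inner_self_eq_norm_sq_to_K, norm_mul, RCLike.norm_ofReal,
      abs_of_pos (inv_pos.2 hpos), norm_pow, RCLike.norm_ofReal, abs_norm, ← hvn]
    field_simp

lemma Psi_eq_of (φ : StrongDual 𝕜 (Hs 𝕜)) (h : Hs 𝕜) (hh : ‖h‖ = 1) (hφ : ‖φ‖ ≤ 1)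
    (h1 : φ (star h) = 1) : Psi φ = h := by
  rw [Psi_apply]
  set v := (InnerProductSpace.toDual 𝕜 (Hs 𝕜)).symm φ with hv
  have hvn : ‖v‖ ≤ 1 := by rw [hv, LinearIsometryEquiv.norm_map]; exact hφ
  have hφv : ⟪v, star h⟫_𝕜 = 1 := by
    rw [hv, InnerProductSpace.toDual_symm_apply, h1]
  have h2 : ‖v - star h‖ ^ 2 ≤ 0 := by
    rw [norm_sub_sq (𝕜 := 𝕜), hφv, norm_star, hh]
    simp only [RCLike.one_re]
    have : ‖v‖ ^ 2 ≤ 1 := pow_le_one₀ (norm_nonneg _) hvn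
    linarith
  have h3 : v - star h = 0 := by
    rw [← norm_eq_zero]
    exact pow_eq_zero_iff (two_ne_zero) |>.1 (le_antisymm h2 (sq_nonneg _))
  rw [sub_eq_zero.1 h3, star_star]

section transpose

variable {p q : ℝ≥0∞} [Fact (1 ≤ p)] [Fact (1 ≤ q)] [hpq : p.HolderConjugate q]

/-- the transposed operator of `V : ℓ² → L_q`, from `L_p` to `ℓ²` -/
noncomputable def TT (V : Hs 𝕜 →L[𝕜] Lp 𝕜 q mu01) : Lp 𝕜 p mu01 →L[𝕜] Hs 𝕜 :=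
  Psi.toContinuousLinearMap.comp
    (((ContinuousLinearMap.compL 𝕜 (Hs 𝕜) (Lp 𝕜 q mu01) 𝕜).flip V).comp BB)

lemma TT_apply (V : Hs 𝕜 →L[𝕜] Lp 𝕜 q mu01) (f : Lp 𝕜 p mu01) :
    TT V f = Psi ((BB f).comp V) := rfl

lemma norm_TT (V : Hs 𝕜 →L[𝕜] Lp 𝕜 q mu01) (f : Lp 𝕜 p mu01) :
    ‖TT V f‖ = ‖(BB f).comp V‖ := by
  rw [TT_apply, LinearIsometry.norm_map]

lemma norm_le_TT (V : Hs 𝕜 →L[𝕜] Lp 𝕜 q mu01) (f : Lp 𝕜 p mu01) (h : Hs 𝕜) (hh : ‖h‖ = 1) :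
    ‖BB f (V h)‖ ≤ ‖TT V f‖ := by
  rw [norm_TT]
  have := ((BB f).comp V).le_opNorm h
  rwa [hh, mul_one] at this

lemma TT_lt (V : Hs 𝕜 →L[𝕜] Lp 𝕜 q mu01) (f : Lp 𝕜 p mu01) (hf : ‖f‖ = 1) (M : ℝ) (hM : 0 < M)
    (hV : ∀ h, ‖h‖ = 1 → ‖V h‖ < M) : ‖TT V f‖ < M := by
  rw [norm_TT]
  by_cases h0 : (BB f).comp V = 0
  · rw [h0, norm_zero]; exact hM
  · obtain ⟨h, hh, he⟩ := attain _ h0
    rw [← he]
    have h1 := norm_BB_le f (V h)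
    rw [hf, one_mul] at h1
    exact lt_of_le_of_lt h1 (hV h hh)

/-- for an isometric embedding, the transposed operator is a metric surjection -/
lemma TT_surj (hp : p ≠ ∞) (hq : q ≠ ∞) (hq2 : 2 ≤ q) (V : Hs 𝕜 →ₗᵢ[𝕜] Lp 𝕜 q mu01) (h : Hs 𝕜)
    (hh : ‖h‖ = 1) : ∃ f : Lp 𝕜 p mu01, ‖f‖ = 1 ∧ TT V.toContinuousLinearMap f = h := by
  obtain ⟨f, hf, hB⟩ := exists_norming (p := p) hp hq hq2 (V (star h))
    (by rw [LinearIsometry.norm_map, norm_star, hh])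
  refine ⟨f, hf, ?_⟩
  rw [TT_apply]
  apply Psi_eq_of _ _ hh
  · refine ContinuousLinearMap.opNorm_le_bound _ zero_le_one fun g => ?_
    have h1 := norm_BB_le f (V g)
    rw [hf, LinearIsometry.norm_map] at h1
    exact h1
  · exact hB

lemma TT_le (V : Hs 𝕜 →ₗᵢ[𝕜] Lp 𝕜 q mu01) (f : Lp 𝕜 p mu01) :
    ‖TT V.toContinuousLinearMap f‖ ≤ ‖f‖ := by
  rw [norm_TT]
  refine ContinuousLinearMap.opNorm_le_bound _ (norm_nonneg _) fun g => ?_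
  have h1 := norm_BB_le f (V g)
  rw [LinearIsometry.norm_map] at h1
  exact h1

end transpose

/-- The data of a counterexample. -/
def Bad (E F : Type) [NormedAddCommGroup E] [NormedSpace 𝕜 E] [NormedAddCommGroup F]
    [NormedSpace 𝕜 F] (T : E →L[𝕜] F) : Prop :=
  ∃ M : ℝ, (∀ x, ‖x‖ = 1 → ‖T x‖ < M) ∧ ∃ x : ℕ → E, (∀ n, ‖x n‖ = 1) ∧
    Tendsto (fun n => ‖T (x n)‖) atTop (𝓝 M) ∧
    ∃ φ : StrongDual 𝕜 E, ¬ Tendsto (fun n => φ (x n)) atTop (𝓝 0)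

lemma norm_eq_of_bad {E F : Type} [NormedAddCommGroup E] [NormedSpace 𝕜 E] [NormedAddCommGroup F]
    [NormedSpace 𝕜 F] (T : E →L[𝕜] F) (M : ℝ) (h1 : ∀ x, ‖x‖ = 1 → ‖T x‖ < M)
    (x : ℕ → E) (h2 : ∀ n, ‖x n‖ = 1) (h3 : Tendsto (fun n => ‖T (x n)‖) atTop (𝓝 M)) :
    ‖T‖ = M := by
  have hM0 : 0 ≤ M := (norm_nonneg _).trans (h1 _ (h2 0)).le
  apply le_antisymm
  · refine ContinuousLinearMap.opNorm_le_bound _ hM0 fun y => ?_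
    by_cases hy : y = 0
    · simp [hy]
    · have hyn : 0 < ‖y‖ := norm_pos_iff.2 hy
      have h4 := (h1 (((‖y‖⁻¹ : ℝ) : 𝕜) • y) (by
        rw [norm_smul, RCLike.norm_ofReal, abs_of_pos (inv_pos.2 hyn), inv_mul_cancel₀ hyn.ne'])).le
      rw [map_smul, norm_smul, RCLike.norm_ofReal, abs_of_pos (inv_pos.2 hyn),
        inv_mul_le_iff₀ hyn, mul_comm] at h4
      exact h4
  · refine le_of_tendsto h3 (Eventually.of_forall fun n => ?_)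
    have := T.le_opNorm (x n)
    rwa [h2, mul_one] at this

/-- Case `q > 2`. -/
theorem caseA {p q : ℝ≥0∞} [Fact (1 ≤ p)] [Fact (1 ≤ q)] (hp1 : 1 < p) (hp2 : p ≤ 2)
    (hq2 : 2 < q) (hq : q ≠ ∞) :
    ∃ T : Lp 𝕜 p mu01 →L[𝕜] Lp 𝕜 q mu01, Bad (Lp 𝕜 p mu01) (Lp 𝕜 q mu01) T := by
  obtain ⟨U, M, s, b, hs, hb, hsb, hM, hU, hlim⟩ := exists_U (𝕜 := 𝕜) hq hq2
  -- the conjugate exponent
  set p' : ℝ≥0∞ := (1 - p⁻¹)⁻¹ with hp'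
  have : p.HolderConjugate p' := ENNReal.HolderConjugate.inv_one_sub_inv' hp1.le
  have hpt : p ≠ ∞ := ne_top_of_le_ne_top (by norm_num) hp2
  have hinv : p⁻¹ < 1 := ENNReal.inv_lt_one.2 hp1
  have hhalf : 2⁻¹ ≤ p⁻¹ := ENNReal.inv_le_inv.2 hp2
  have hp't : p' ≠ ∞ := by
    rw [hp', Ne, ENNReal.inv_eq_top]
    exact (tsub_pos_iff_lt.2 hinv).ne'
  have hp'2 : 2 ≤ p' := by
    rw [hp', ENNReal.le_inv_iff_le_inv]
    rw [tsub_le_iff_right]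
    calc (1 : ℝ≥0∞) = 2⁻¹ + 2⁻¹ := (ENNReal.inv_two_add_inv_two).symm
      _ ≤ 2⁻¹ + p⁻¹ := by gcongr
  have : Fact (1 ≤ p') := ⟨le_trans (by norm_num) hp'2⟩
  let V : Hs 𝕜 →ₗᵢ[𝕜] Lp 𝕜 p' mu01 := J hp't
  let S : Lp 𝕜 p mu01 →L[𝕜] Hs 𝕜 := TT V.toContinuousLinearMap
  have hhn : ∀ n, ‖((s : ℝ) : 𝕜) • (ee 0 : Hs 𝕜) + ((b : ℝ) : 𝕜) • ee (n + 1)‖ = 1 := by
    intro n
    have h1 := ee_orth (𝕜 := 𝕜) ((s : ℝ) : 𝕜) ((b : ℝ) : 𝕜) (Nat.succ_ne_zero n).symm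
    rw [RCLike.norm_ofReal, RCLike.norm_ofReal, sq_abs, sq_abs, hsb] at h1
    exact (pow_eq_one_iff_of_nonneg (norm_nonneg _) (by norm_num)).1 h1
  have hx : ∀ n, ∃ f : Lp 𝕜 p mu01, ‖f‖ = 1 ∧
      S f = ((s : ℝ) : 𝕜) • (ee 0 : Hs 𝕜) + ((b : ℝ) : 𝕜) • ee (n + 1) :=
    fun n => TT_surj hpt hp't hp'2 V _ (hhn n)
  choose x hx1 hx2 using hx
  refine ⟨U.comp S, M, ?_, x, hx1, ?_, (lp.evalCLM 𝕜 (fun _ : ℕ => 𝕜) 2 0).comp S, ?_⟩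
  · intro f hf
    rw [ContinuousLinearMap.comp_apply]
    by_cases h0 : S f = 0
    · rw [h0, map_zero, norm_zero]; exact hM
    · have hn : 0 < ‖S f‖ := norm_pos_iff.2 h0
      have hle : ‖S f‖ ≤ 1 := by
        have := TT_le V f
        rwa [hf] at this
      have h1 := hU (((‖S f‖⁻¹ : ℝ) : 𝕜) • S f) (by
        rw [norm_smul, RCLike.norm_ofReal, abs_of_pos (inv_pos.2 hn), inv_mul_cancel₀ hn.ne'])
      rw [map_smul, norm_smul, RCLike.norm_ofReal, abs_of_pos (inv_pos.2 hn),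
        inv_mul_lt_iff₀ hn] at h1
      calc ‖U (S f)‖ < ‖S f‖ * M := h1
        _ ≤ 1 * M := by gcongr
        _ = M := one_mul M
  · refine hlim.congr fun n => ?_
    rw [ContinuousLinearMap.comp_apply, hx2]
  · intro h
    have h1 : ∀ n, ((lp.evalCLM 𝕜 (fun _ : ℕ => 𝕜) 2 0).comp S) (x n) = ((s : ℝ) : 𝕜) := by
      intro n
      rw [ContinuousLinearMap.comp_apply, hx2]
      show ((((s : ℝ) : 𝕜) • (ee 0 : Hs 𝕜) + ((b : ℝ) : 𝕜) • (ee (n + 1) : Hs 𝕜) : Hs 𝕜) : ℕ → 𝕜) 0 = _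
      rw [lp.coeFn_add, Pi.add_apply, lp.coeFn_smul, lp.coeFn_smul, Pi.smul_apply, Pi.smul_apply,
        ee_apply, ee_apply]
      simp
    simp_rw [h1] at h
    have := tendsto_nhds_unique h tendsto_const_nhds
    have h2 : s = 0 := by exact_mod_cast this.symm
    exact hs.ne' h2

/-- Case `q = 2`. -/
theorem caseB {p : ℝ≥0∞} [Fact (1 ≤ p)] (hp1 : 1 < p) (hp2 : p < 2) :
    ∃ T : Lp 𝕜 p mu01 →L[𝕜] Lp 𝕜 2 mu01, Bad (Lp 𝕜 p mu01) (Lp 𝕜 2 mu01) T := by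
  set p' : ℝ≥0∞ := (1 - p⁻¹)⁻¹ with hp'
  have : p.HolderConjugate p' := ENNReal.HolderConjugate.inv_one_sub_inv' hp1.le
  have hpt : p ≠ ∞ := ne_top_of_le_ne_top (by norm_num) hp2.le
  have hinv : p⁻¹ < 1 := ENNReal.inv_lt_one.2 hp1
  have hhalf : 2⁻¹ < p⁻¹ := ENNReal.inv_lt_inv.2 hp2
  have hp't : p' ≠ ∞ := by
    rw [hp', Ne, ENNReal.inv_eq_top]
    exact (tsub_pos_iff_lt.2 hinv).ne'
  have hp'2 : 2 < p' := by
    rw [hp', ENNReal.lt_inv_iff_lt_inv]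
    refine ENNReal.sub_lt_of_lt_add hinv.le ?_
    calc (1 : ℝ≥0∞) = 2⁻¹ + 2⁻¹ := (ENNReal.inv_two_add_inv_two).symm
      _ < 2⁻¹ + p⁻¹ := by
        exact (ENNReal.add_lt_add_iff_left (by norm_num)).2 hhalf
  have : Fact (1 ≤ p') := ⟨le_trans (by norm_num) hp'2.le⟩
  obtain ⟨U, M, s, b, hs, hb, hsb, hM, hU, hlim⟩ := exists_U (𝕜 := 𝕜) hp't hp'2
  have hhn : ∀ n, ‖((s : ℝ) : 𝕜) • (ee 0 : Hs 𝕜) + ((b : ℝ) : 𝕜) • ee (n + 1)‖ = 1 := by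
    intro n
    have h1 := ee_orth (𝕜 := 𝕜) ((s : ℝ) : 𝕜) ((b : ℝ) : 𝕜) (Nat.succ_ne_zero n).symm
    rw [RCLike.norm_ofReal, RCLike.norm_ofReal, sq_abs, sq_abs, hsb] at h1
    exact (pow_eq_one_iff_of_nonneg (norm_nonneg _) (by norm_num)).1 h1
  have hb1 : b < 1 := by nlinarith
  -- norming functionals
  have hx : ∀ n, ∃ f : Lp 𝕜 p mu01, ‖f‖ = 1 ∧
      BB f (U (((s : ℝ) : 𝕜) • (ee 0 : Hs 𝕜) + ((b : ℝ) : 𝕜) • ee (n + 1))) =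
        ((‖U (((s : ℝ) : 𝕜) • (ee 0 : Hs 𝕜) + ((b : ℝ) : 𝕜) • ee (n + 1))‖ : ℝ) : 𝕜) := by
    intro n
    set g := U (((s : ℝ) : 𝕜) • (ee 0 : Hs 𝕜) + ((b : ℝ) : 𝕜) • ee (n + 1)) with hg
    by_cases h0 : g = 0
    · obtain ⟨f, hf, -⟩ := exists_norming (p := p) hpt hp't hp'2.le
        (J (𝕜 := 𝕜) hp't (ee 0)) (by rw [LinearIsometry.norm_map, norm_ee])
      exact ⟨f, hf, by rw [h0]; simp⟩
    · have hn : 0 < ‖g‖ := norm_pos_iff.2 h0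
      obtain ⟨f, hf, hB⟩ := exists_norming (p := p) hpt hp't hp'2.le (((‖g‖⁻¹ : ℝ) : 𝕜) • g) (by
        rw [norm_smul, RCLike.norm_ofReal, abs_of_pos (inv_pos.2 hn), inv_mul_cancel₀ hn.ne'])
      refine ⟨f, hf, ?_⟩
      rw [map_smul, smul_eq_mul] at hB
      have h1 : ((‖g‖ : ℝ) : 𝕜) * ((‖g‖⁻¹ : ℝ) : 𝕜) = 1 := by
        rw [← RCLike.ofReal_mul, mul_inv_cancel₀ hn.ne', RCLike.ofReal_one]
      calc BB f g = (((‖g‖ : ℝ) : 𝕜) * ((‖g‖⁻¹ : ℝ) : 𝕜)) * BB f g := by rw [h1, one_mul]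
        _ = ((‖g‖ : ℝ) : 𝕜) * (((‖g‖⁻¹ : ℝ) : 𝕜) * BB f g) := by ring
        _ = _ := by rw [hB, mul_one]
  choose x hx1 hx2 using hx
  have h2t : (2 : ℝ≥0∞) ≠ ∞ := by norm_num
  refine ⟨(J (𝕜 := 𝕜) h2t).toContinuousLinearMap.comp (TT U), M, ?_, x, hx1, ?_, ?_⟩
  · intro f hf
    have : ‖((J (𝕜 := 𝕜) h2t).toContinuousLinearMap.comp (TT U)) f‖ = ‖TT U f‖ :=
      (J (𝕜 := 𝕜) h2t).norm_map _
    rw [this]
    exact TT_lt U f hf M hM hU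
  · have h1 : ∀ n, ‖((J (𝕜 := 𝕜) h2t).toContinuousLinearMap.comp (TT U)) (x n)‖ = ‖TT U (x n)‖ :=
      fun n => (J (𝕜 := 𝕜) h2t).norm_map _
    simp_rw [h1]
    refine tendsto_of_tendsto_of_tendsto_of_le_of_le hlim tendsto_const_nhds (fun n => ?_)
      (fun n => (TT_lt U (x n) (hx1 n) M hM hU).le)
    have h2 := norm_le_TT U (x n) _ (hhn n)
    rw [hx2, RCLike.norm_ofReal, abs_norm] at h2
    exact h2
  · refine ⟨(BB (p := p) (q := p')).flip (U (ee 0)), fun h => ?_⟩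
    -- `BB (x n) (U h_n)` converges to `M`
    have h1 : ∀ n, ‖U (((s : ℝ) : 𝕜) • (ee 0 : Hs 𝕜) + ((b : ℝ) : 𝕜) • ee (n + 1))‖ ≤
        s * ‖BB (x n) (U (ee 0))‖ + b * M := by
      intro n
      have h2 : BB (x n) (U (((s : ℝ) : 𝕜) • (ee 0 : Hs 𝕜) + ((b : ℝ) : 𝕜) • ee (n + 1))) =
          ((s : ℝ) : 𝕜) * BB (x n) (U (ee 0)) + ((b : ℝ) : 𝕜) * BB (x n) (U (ee (n + 1))) := by
        rw [map_add, map_add, map_smul, map_smul, map_smul, map_smul, smul_eq_mul, smul_eq_mul]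
      have h3 : ‖BB (x n) (U (((s : ℝ) : 𝕜) • (ee 0 : Hs 𝕜) + ((b : ℝ) : 𝕜) • ee (n + 1)))‖ =
          ‖U (((s : ℝ) : 𝕜) • (ee 0 : Hs 𝕜) + ((b : ℝ) : 𝕜) • ee (n + 1))‖ := by
        rw [hx2, RCLike.norm_ofReal, abs_norm]
      rw [← h3, h2]
      refine (norm_add_le _ _).trans ?_
      rw [norm_mul, norm_mul, RCLike.norm_ofReal, RCLike.norm_ofReal, abs_of_pos hs, abs_of_pos hb]
      have h4 := norm_BB_le (x n) (U (ee (n + 1)))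
      rw [hx1, one_mul] at h4
      have h5 := (hU (ee (n + 1)) (norm_ee _)).le
      gcongr
      exact h4.trans h5
    have h6 : Tendsto (fun n => s * ‖BB (x n) (U (ee 0))‖ + b * M) atTop (𝓝 (s * 0 + b * M)) := by
      refine Tendsto.add_const _ (Tendsto.const_mul _ ?_)
      have := h.norm
      rw [norm_zero] at this
      exact this
    have h7 := le_of_tendsto_of_tendsto' hlim h6 h1
    nlinarith

end Pool.Agent.U541.WM
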